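import Pool.Agent.U481.HW.Stm

set_option autoImplicit false

/-!
Project HW, package STRONG: the maximal function is bounded on `L^q`, `q > 1`.
-/

open MeasureTheory Filter Topology Set
open scoped ENNReal NNReal

namespace Pool.Agent.U399.HW.Strong

open Pool.Agent.U481.HW

theorem measurable_MM (μ : Measure ℝ) (f : ℝ → ℝ≥0∞) : Measurable (MM μ f) := by
  apply measurable_of_Ioi
  intro t
  have h : MM μ f ⁻¹' Ioi t = ⋃ (a : ℝ) (b : ℝ)
      (_ : t < (∫⁻ y in Ioo a b, f y ∂μ) / μ (Ioo a b)), Ioo a b := by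
    ext x
    simp only [MM, mem_preimage, mem_Ioi, lt_iSup_iff, mem_iUnion, mem_Ioo, exists_prop]
    constructor
    · rintro ⟨a, b, h, ht⟩; exact ⟨a, b, ht, h⟩
    · rintro ⟨a, b, ht, h⟩; exact ⟨a, b, h, ht⟩
  rw [h]
  exact (isOpen_iUnion fun a => isOpen_iUnion fun b => isOpen_iUnion fun _ =>
    isOpen_Ioo).measurableSet

theorem MM_le (μ : Measure ℝ) (f : ℝ → ℝ≥0∞) (s : ℝ≥0∞) (x : ℝ) :
    MM μ f x ≤ MM μ ({y | s < f y}.indicator f) x + s := by
  conv_lhs => unfold MM
  refine iSup_le fun a => iSup_le fun b => iSup_le fun h => ?_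
  have h1 : ∫⁻ y in Ioo a b, f y ∂μ ≤
      (∫⁻ y in Ioo a b, ({y | s < f y}.indicator f) y ∂μ) + s * μ (Ioo a b) := by
    calc ∫⁻ y in Ioo a b, f y ∂μ
        ≤ ∫⁻ y in Ioo a b, (({y | s < f y}.indicator f) y + s) ∂μ := by
          apply lintegral_mono
          intro y
          by_cases hy : s < f y
          · simp [indicator, hy]
          · simp only [indicator, mem_ofPred_eq, hy, if_false, zero_add]
            exact not_lt.mp hy
      _ = _ := by rw [lintegral_add_right _ measurable_const, setLIntegral_const]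
  have h2 : (∫⁻ y in Ioo a b, ({y | s < f y}.indicator f) y ∂μ) / μ (Ioo a b) ≤
      MM μ ({y | s < f y}.indicator f) x := by
    unfold MM
    exact le_iSup_of_le a (le_iSup_of_le b (le_iSup_of_le h le_rfl))
  calc (∫⁻ y in Ioo a b, f y ∂μ) / μ (Ioo a b)
      ≤ ((∫⁻ y in Ioo a b, ({y | s < f y}.indicator f) y ∂μ) + s * μ (Ioo a b)) / μ (Ioo a b) :=
        ENNReal.div_le_div_right h1 _
    _ = (∫⁻ y in Ioo a b, ({y | s < f y}.indicator f) y ∂μ) / μ (Ioo a b) +
        s * μ (Ioo a b) / μ (Ioo a b) := ENNReal.add_div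
    _ ≤ _ := add_le_add h2 (ENNReal.div_le_of_le_mul le_rfl)

theorem lint_rpow (r c : ℝ) (hr : -1 < r) (hc : 0 ≤ c) :
    ∫⁻ t in Ioc 0 c, ENNReal.ofReal (t ^ r) = ENNReal.ofReal (c ^ (r + 1) / (r + 1)) := by
  have h1 : IntervalIntegrable (fun t : ℝ => t ^ r) volume 0 c :=
    intervalIntegral.intervalIntegrable_rpow' hr
  rw [← ofReal_integral_eq_lintegral_ofReal]
  · rw [← intervalIntegral.integral_of_le hc, integral_rpow (Or.inl hr)]
    rw [Real.zero_rpow (by linarith), sub_zero]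
  · exact (intervalIntegrable_iff_integrableOn_Ioc_of_le hc).mp h1
  · filter_upwards [ae_restrict_mem measurableSet_Ioc] with t ht
    exact Real.rpow_nonneg ht.1.le _

/-- lower layer cake, pointwise. -/
theorem pt_lower (q : ℝ) (hq : 0 < q) (g : ℝ≥0∞) :
    g ^ q ≤ ENNReal.ofReal q *
      ∫⁻ t in Ioi (0 : ℝ), {t : ℝ | ENNReal.ofReal t < g}.indicator
        (fun t => ENNReal.ofReal (t ^ (q - 1))) t := by
  refine ENNReal.le_of_forall_nnreal_lt fun r hr => ?_
  set c : ℝ := (r : ℝ) ^ (1 / q) with hc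
  have hc0 : 0 ≤ c := Real.rpow_nonneg (NNReal.coe_nonneg r) _
  have h1 : ENNReal.ofReal c < g := by
    have h2 : (r : ℝ≥0∞) ^ (1 / q) < g := by
      have := ENNReal.rpow_lt_rpow hr (one_div_pos.mpr hq)
      rwa [← ENNReal.rpow_mul, mul_one_div_cancel hq.ne', ENNReal.rpow_one] at this
    have h3 : ENNReal.ofReal c = (r : ℝ≥0∞) ^ (1 / q) := by
      rw [hc, ← ENNReal.ofReal_rpow_of_nonneg (NNReal.coe_nonneg r) (one_div_pos.mpr hq).le,
        ENNReal.ofReal_coe_nnreal]
    rwa [h3]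
  have h4 : (r : ℝ≥0∞) = ENNReal.ofReal q * ∫⁻ t in Ioc 0 c, ENNReal.ofReal (t ^ (q - 1)) := by
    rw [lint_rpow (q - 1) c (by linarith) hc0, ← ENNReal.ofReal_mul hq.le]
    have : q * (c ^ (q - 1 + 1) / (q - 1 + 1)) = r := by
      rw [sub_add_cancel, mul_div_cancel₀ _ hq.ne', hc, ← Real.rpow_mul (NNReal.coe_nonneg r),
        one_div_mul_cancel hq.ne', Real.rpow_one]
    rw [this, ENNReal.ofReal_coe_nnreal]
  rw [h4]
  apply mul_le_mul' le_rfl
  rw [← lintegral_indicator measurableSet_Ioc, ← lintegral_indicator measurableSet_Ioi]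
  apply lintegral_mono
  intro t
  by_cases ht : t ∈ Ioc 0 c
  · have h5 : ENNReal.ofReal t < g := lt_of_le_of_lt (ENNReal.ofReal_le_ofReal ht.2) h1
    have h6 : t ∈ Ioi (0 : ℝ) := ht.1
    have h7 : t ∈ {t : ℝ | ENNReal.ofReal t < g} := h5
    simp only [indicator_of_mem ht, indicator_of_mem h6, indicator_of_mem h7]
    exact le_rfl
  · simp only [indicator_of_notMem ht]
    exact zero_le

/-- upper layer cake, pointwise. -/
theorem pt_upper (q : ℝ) (hq : 1 < q) (g : ℝ≥0∞) :
    ∫⁻ t in Ioi (0 : ℝ), ENNReal.ofReal (4 * t ^ (q - 2)) *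
        {t : ℝ | ENNReal.ofReal (t / 2) < g}.indicator (fun _ => g) t
      ≤ ENNReal.ofReal (4 * 2 ^ (q - 1) / (q - 1)) * g ^ q := by
  have hC : 0 < 4 * (2 : ℝ) ^ (q - 1) / (q - 1) := by
    have : (0 : ℝ) < 2 ^ (q - 1) := Real.rpow_pos_of_pos (by norm_num) _
    have : 0 < q - 1 := by linarith
    positivity
  by_cases hg : g = ⊤
  · rw [hg, ENNReal.top_rpow_of_pos (by linarith), ENNReal.mul_top (by simpa using hC)]
    exact le_top
  lift g to ℝ≥0 using hg with F
  have hF : (0 : ℝ) ≤ F := F.2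
  have h1 : ∀ t ∈ Ioi (0 : ℝ), ENNReal.ofReal (4 * t ^ (q - 2)) *
      {t : ℝ | ENNReal.ofReal (t / 2) < (F : ℝ≥0∞)}.indicator (fun _ => (F : ℝ≥0∞)) t ≤
      (Ioc 0 (2 * (F : ℝ))).indicator
        (fun t => (4 * (F : ℝ≥0∞)) * ENNReal.ofReal (t ^ (q - 2))) t := by
    intro t ht
    by_cases h : ENNReal.ofReal (t / 2) < (F : ℝ≥0∞)
    · have h2 : t ∈ Ioc 0 (2 * (F : ℝ)) := by
        refine ⟨ht, ?_⟩
        have h3 : t / 2 < F := by
          have h4 : (F : ℝ≥0∞) = ENNReal.ofReal F := by rw [ENNReal.ofReal_coe_nnreal]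
          rw [h4] at h
          exact (ENNReal.ofReal_lt_ofReal_iff_of_nonneg (by
            have : (0 : ℝ) < t := ht
            positivity)).mp h
        linarith
      have h7 : t ∈ {t : ℝ | ENNReal.ofReal (t / 2) < (F : ℝ≥0∞)} := h
      rw [indicator_of_mem h2, indicator_of_mem h7, ENNReal.ofReal_mul (by norm_num)]
      have : ENNReal.ofReal 4 = 4 := by norm_num
      rw [this]
      apply le_of_eq
      ring
    · have h7 : t ∉ {t : ℝ | ENNReal.ofReal (t / 2) < (F : ℝ≥0∞)} := h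
      rw [indicator_of_notMem h7, mul_zero]
      exact zero_le
  calc ∫⁻ t in Ioi (0 : ℝ), ENNReal.ofReal (4 * t ^ (q - 2)) *
        {t : ℝ | ENNReal.ofReal (t / 2) < (F : ℝ≥0∞)}.indicator (fun _ => (F : ℝ≥0∞)) t
      ≤ ∫⁻ t in Ioi (0 : ℝ), (Ioc 0 (2 * (F : ℝ))).indicator
        (fun t => (4 * (F : ℝ≥0∞)) * ENNReal.ofReal (t ^ (q - 2))) t :=
        setLIntegral_mono' measurableSet_Ioi h1
    _ ≤ ∫⁻ t, (Ioc 0 (2 * (F : ℝ))).indicator
        (fun t => (4 * (F : ℝ≥0∞)) * ENNReal.ofReal (t ^ (q - 2))) t :=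
        lintegral_mono' Measure.restrict_le_self le_rfl
    _ = (4 * (F : ℝ≥0∞)) * ∫⁻ t in Ioc 0 (2 * (F : ℝ)), ENNReal.ofReal (t ^ (q - 2)) := by
        rw [lintegral_indicator measurableSet_Ioc, lintegral_const_mul' _ _ (by
          exact ENNReal.mul_ne_top (by norm_num) ENNReal.coe_ne_top)]
    _ = ENNReal.ofReal (4 * 2 ^ (q - 1) / (q - 1)) * (F : ℝ≥0∞) ^ q := by
        rw [lint_rpow (q - 2) _ (by linarith) (by positivity)]
        have h4 : (F : ℝ≥0∞) = ENNReal.ofReal F := by rw [ENNReal.ofReal_coe_nnreal]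
        have h5 : (4 : ℝ≥0∞) = ENNReal.ofReal 4 := by norm_num
        rw [h4, h5, ← ENNReal.ofReal_mul (by norm_num), ← ENNReal.ofReal_mul (by positivity),
          ENNReal.ofReal_rpow_of_nonneg hF (by linarith), ← ENNReal.ofReal_mul hC.le]
        congr 1
        have h6 : q - 2 + 1 = q - 1 := by ring
        rw [h6, Real.mul_rpow (by norm_num) hF]
        rcases eq_or_lt_of_le hF with h0 | h0
        · rw [← h0, Real.zero_rpow (by linarith : q ≠ 0)]; ring
        · have h8 : (F : ℝ) ^ q = F * (F : ℝ) ^ (q - 1) := by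
            rw [Real.rpow_sub_one h0.ne']; field_simp
          rw [h8]; ring

theorem main : S_weak → S_strong := by
  intro hw q hq
  refine ⟨ENNReal.ofReal q * ENNReal.ofReal (4 * 2 ^ (q - 1) / (q - 1)),
    ENNReal.mul_lt_top ENNReal.ofReal_lt_top ENNReal.ofReal_lt_top, ?_⟩
  intro μ hμ f hf
  have : IsLocallyFiniteMeasure μ := ⟨fun x => ⟨Ioo (x - 1) (x + 1),
    Ioo_mem_nhds (by linarith) (by linarith), hμ _ _⟩⟩
  have hMM := measurable_MM μ f
  have hm1 : MeasurableSet {p : ℝ × ℝ | ENNReal.ofReal p.2 < MM μ f p.1} :=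
    measurableSet_lt (ENNReal.measurable_ofReal.comp measurable_snd) (hMM.comp measurable_fst)
  have hm2 : MeasurableSet {p : ℝ × ℝ | ENNReal.ofReal (p.1 / 2) < f p.2} :=
    measurableSet_lt (ENNReal.measurable_ofReal.comp (measurable_fst.div_const 2))
      (hf.comp measurable_snd)
  -- weak type bound
  have hweak : ∀ t : ℝ, 0 < t → ENNReal.ofReal (t ^ (q - 1)) * μ {x | ENNReal.ofReal t < MM μ f x}
      ≤ ENNReal.ofReal (4 * t ^ (q - 2)) *
        ∫⁻ y, {y | ENNReal.ofReal (t / 2) < f y}.indicator f y ∂μ := by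
    intro t ht
    have h1 := hw μ hμ ({y | ENNReal.ofReal (t / 2) < f y}.indicator f)
      (hf.indicator (measurableSet_lt measurable_const hf)) (ENNReal.ofReal (t / 2))
    have h2 : {x | ENNReal.ofReal t < MM μ f x} ⊆ {x | ENNReal.ofReal (t / 2) <
        MM μ ({y | ENNReal.ofReal (t / 2) < f y}.indicator f) x} := by
      intro x hx
      have h3 := MM_le μ f (ENNReal.ofReal (t / 2)) x
      have h4 : ENNReal.ofReal t = ENNReal.ofReal (t / 2) + ENNReal.ofReal (t / 2) := by
        rw [← ENNReal.ofReal_add (by positivity) (by positivity)]; congr 1; ring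
      have h5 : ENNReal.ofReal (t / 2) + ENNReal.ofReal (t / 2) <
          MM μ ({y | ENNReal.ofReal (t / 2) < f y}.indicator f) x + ENNReal.ofReal (t / 2) := by
        rw [← h4]; exact lt_of_lt_of_le hx h3
      exact lt_of_add_lt_add_right h5
    have h6 : ENNReal.ofReal (t ^ (q - 1)) =
        ENNReal.ofReal (2 * t ^ (q - 2)) * ENNReal.ofReal (t / 2) := by
      rw [← ENNReal.ofReal_mul (by positivity)]
      congr 1
      have : t ^ (q - 1) = t ^ (q - 2) * t := by
        rw [← Real.rpow_add_one ht.ne']; congr 1; ring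
      rw [this]; ring
    calc ENNReal.ofReal (t ^ (q - 1)) * μ {x | ENNReal.ofReal t < MM μ f x}
        ≤ ENNReal.ofReal (t ^ (q - 1)) * μ {x | ENNReal.ofReal (t / 2) <
          MM μ ({y | ENNReal.ofReal (t / 2) < f y}.indicator f) x} := by
          gcongr
      _ = ENNReal.ofReal (2 * t ^ (q - 2)) * (ENNReal.ofReal (t / 2) *
          μ {x | ENNReal.ofReal (t / 2) <
            MM μ ({y | ENNReal.ofReal (t / 2) < f y}.indicator f) x}) := by
          rw [h6, mul_assoc]
      _ ≤ ENNReal.ofReal (2 * t ^ (q - 2)) *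
          (2 * ∫⁻ y, {y | ENNReal.ofReal (t / 2) < f y}.indicator f y ∂μ) := by
          gcongr
      _ = ENNReal.ofReal (4 * t ^ (q - 2)) *
          ∫⁻ y, {y | ENNReal.ofReal (t / 2) < f y}.indicator f y ∂μ := by
          rw [← mul_assoc]
          congr 1
          have h7 : (2 : ℝ≥0∞) = ENNReal.ofReal 2 := by norm_num
          rw [h7, ← ENNReal.ofReal_mul (by positivity)]
          congr 1; ring
  calc ∫⁻ x, (MM μ f x) ^ q ∂μ
      ≤ ∫⁻ x, ENNReal.ofReal q * (∫⁻ t in Ioi (0 : ℝ),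
          {t : ℝ | ENNReal.ofReal t < MM μ f x}.indicator
            (fun t => ENNReal.ofReal (t ^ (q - 1))) t) ∂μ :=
        lintegral_mono fun x => pt_lower q (by linarith) (MM μ f x)
    _ = ENNReal.ofReal q * ∫⁻ x, (∫⁻ t in Ioi (0 : ℝ),
          {t : ℝ | ENNReal.ofReal t < MM μ f x}.indicator
            (fun t => ENNReal.ofReal (t ^ (q - 1))) t) ∂μ :=
        lintegral_const_mul' _ _ ENNReal.ofReal_ne_top
    _ = ENNReal.ofReal q * ∫⁻ t in Ioi (0 : ℝ), (∫⁻ x,
          {t : ℝ | ENNReal.ofReal t < MM μ f x}.indicator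
            (fun t => ENNReal.ofReal (t ^ (q - 1))) t ∂μ) := by
        congr 1
        apply lintegral_lintegral_swap
        have h8 : (Function.uncurry fun (x t : ℝ) => {t : ℝ | ENNReal.ofReal t < MM μ f x}.indicator
            (fun t => ENNReal.ofReal (t ^ (q - 1))) t) =
            {p : ℝ × ℝ | ENNReal.ofReal p.2 < MM μ f p.1}.indicator
              (fun p => ENNReal.ofReal (p.2 ^ (q - 1))) := by
          ext p
          simp only [Function.uncurry, indicator, mem_ofPred_eq]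
        rw [h8]
        apply Measurable.aemeasurable
        apply Measurable.indicator _ hm1
        exact ENNReal.measurable_ofReal.comp (measurable_snd.pow_const _)
    _ ≤ ENNReal.ofReal q * ∫⁻ t in Ioi (0 : ℝ), (∫⁻ y, ENNReal.ofReal (4 * t ^ (q - 2)) *
          {t : ℝ | ENNReal.ofReal (t / 2) < f y}.indicator (fun _ => f y) t ∂μ) := by
        apply mul_le_mul' le_rfl
        apply setLIntegral_mono' measurableSet_Ioi
        intro t ht
        have h9 : (∫⁻ x, {t : ℝ | ENNReal.ofReal t < MM μ f x}.indicator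
            (fun t => ENNReal.ofReal (t ^ (q - 1))) t ∂μ) =
            ENNReal.ofReal (t ^ (q - 1)) * μ {x | ENNReal.ofReal t < MM μ f x} := by
          have h10 : (fun x => {t : ℝ | ENNReal.ofReal t < MM μ f x}.indicator
            (fun t => ENNReal.ofReal (t ^ (q - 1))) t) =
            {x | ENNReal.ofReal t < MM μ f x}.indicator
              (fun _ => ENNReal.ofReal (t ^ (q - 1))) := by
            ext x; simp only [indicator, mem_ofPred_eq]
          rw [h10, lintegral_indicator (measurableSet_lt measurable_const hMM),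
            setLIntegral_const]
        have h11 : (∫⁻ y, ENNReal.ofReal (4 * t ^ (q - 2)) *
          {t : ℝ | ENNReal.ofReal (t / 2) < f y}.indicator (fun _ => f y) t ∂μ) =
          ENNReal.ofReal (4 * t ^ (q - 2)) *
            ∫⁻ y, {y | ENNReal.ofReal (t / 2) < f y}.indicator f y ∂μ := by
          rw [lintegral_const_mul' _ _ ENNReal.ofReal_ne_top]
          rfl
        rw [h9, h11]
        exact hweak t ht
    _ = ENNReal.ofReal q * ∫⁻ y, (∫⁻ t in Ioi (0 : ℝ), ENNReal.ofReal (4 * t ^ (q - 2)) *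
          {t : ℝ | ENNReal.ofReal (t / 2) < f y}.indicator (fun _ => f y) t) ∂μ := by
        congr 1
        apply lintegral_lintegral_swap
        have h8 : (Function.uncurry fun (t y : ℝ) => ENNReal.ofReal (4 * t ^ (q - 2)) *
          {t : ℝ | ENNReal.ofReal (t / 2) < f y}.indicator (fun _ => f y) t) =
            fun p : ℝ × ℝ => ENNReal.ofReal (4 * p.1 ^ (q - 2)) *
              {p : ℝ × ℝ | ENNReal.ofReal (p.1 / 2) < f p.2}.indicator (fun p => f p.2) p := by
          ext p
          simp only [Function.uncurry, indicator, mem_ofPred_eq]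
        rw [h8]
        apply Measurable.aemeasurable
        apply Measurable.mul
        · exact ENNReal.measurable_ofReal.comp ((measurable_fst.pow_const _).const_mul _)
        · exact Measurable.indicator (hf.comp measurable_snd) hm2
    _ ≤ ENNReal.ofReal q * ∫⁻ y, ENNReal.ofReal (4 * 2 ^ (q - 1) / (q - 1)) * (f y) ^ q ∂μ := by
        gcongr with y
        exact pt_upper q hq (f y)
    _ = ENNReal.ofReal q * ENNReal.ofReal (4 * 2 ^ (q - 1) / (q - 1)) * ∫⁻ x, (f x) ^ q ∂μ := by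
        rw [lintegral_const_mul' _ _ ENNReal.ofReal_ne_top, mul_assoc]

end Pool.Agent.U399.HW.Strong
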